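import Pool.Agent.W221.NS.Stm4
import Pool.Agent.W22.MF.OSC

set_option autoImplicit false
set_option linter.unusedVariables false

/-! MH-OSC3: scaling to viscosity one for local solutions with a force. -/

open MeasureTheory Set
open scoped ContDiff

namespace Pool.Agent.W589.MH

open H459R3.NS W221.NS Pool.Agent.W22.MF

lemma bd3_scale {ν F : ℝ} {O : Set V} {f : V → V} (hν : 0 < ν) (h : Bd3 F O f) :
    Bd3 (F / ν ^ 2) O (fun x => (ν ^ 2)⁻¹ • f x) := by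
  intro x hx i
  obtain ⟨h0, h1, h2, h3⟩ := h x hx i
  have hpos : 0 < (ν ^ 2)⁻¹ := by positivity
  have hsc : ∀ c : ℝ, |c| ≤ F → |(ν ^ 2)⁻¹ * c| ≤ F / ν ^ 2 := by
    intro c hc
    rw [abs_mul, abs_of_pos hpos, div_eq_inv_mul]
    exact mul_le_mul_of_nonneg_left hc hpos.le
  have e0 : (fun y => ((ν ^ 2)⁻¹ • f y) i) = fun y => (ν ^ 2)⁻¹ * f y i := rfl
  have e1 : ∀ (j : Fin 3) (g : V → ℝ), pd j (fun y => (ν ^ 2)⁻¹ * g y) =
      fun y => (ν ^ 2)⁻¹ * pd j g y := by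
    intro j g
    funext y
    exact pd_const_mul _ j g y
  refine ⟨hsc _ h0, fun j => ?_, fun j k => ?_, fun j k l => ?_⟩
  · rw [e0, e1]
    exact hsc _ (h1 j)
  · rw [e0, e1, e1]
    exact hsc _ (h2 j k)
  · rw [e0, e1, e1, e1]
    exact hsc _ (h3 j k l)

theorem t_OSC3 : S_OSC3 := by
  intro ν T E F Ω u p f hν h
  have hdiv : ∀ t, t ∈ Ioo 0 (ν * T) → t / ν ∈ Ioo 0 T := by
    intro t ht
    refine ⟨div_pos ht.1 hν, ?_⟩
    rw [div_lt_iff₀ hν, mul_comm T ν]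
    exact ht.2
  have hmaps : MapsTo (fun z : ℝ × V => (z.1 / ν, z.2)) (Ioo 0 (ν * T) ×ˢ Ω)
      (Ioo 0 T ×ˢ Ω) := by
    rintro ⟨t, x⟩ ⟨ht, hx⟩
    exact ⟨hdiv t ht, hx⟩
  have hlin : ContDiff ℝ ∞ (fun z : ℝ × V => (z.1 / ν, z.2)) := by fun_prop
  refine ⟨h.openO, ?_, ?_, ?_, ?_, ?_, ?_, ?_⟩
  · have h1 := (h.smooth_u.comp hlin.contDiffOn hmaps).const_smul ν⁻¹
    exact h1
  · have h1 := (h.smooth_p.comp hlin.contDiffOn hmaps).const_smul ((ν ^ 2)⁻¹)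
    exact h1
  · intro t ht x hx
    have h1 := h.divfree _ (hdiv t ht) x hx
    have h2 : ∀ i, pd i (fun y => (ν⁻¹ • u (t / ν) y) i) x =
        ν⁻¹ * pd i (fun y => u (t / ν) y i) x := fun i =>
      pd_const_mul ν⁻¹ i (fun y => u (t / ν) y i) x
    rw [Finset.sum_congr rfl fun i _ => h2 i, ← Finset.mul_sum, h1, mul_zero]
  · intro t ht x hx i
    have h1 := h.momentum _ (hdiv t ht) x hx i
    have e1 : deriv (fun s => (ν⁻¹ • u (s / ν) x) i) t =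
        ν⁻¹ * (ν⁻¹ * deriv (fun s => u s x i) (t / ν)) :=
      deriv_scale ν (fun s => u s x i) t
    have e2 : ∀ j, pd j (fun y => (ν⁻¹ • u (t / ν) y) i) =
        fun x => ν⁻¹ * pd j (fun y => u (t / ν) y i) x := by
      intro j
      funext x
      exact pd_const_mul ν⁻¹ j (fun y => u (t / ν) y i) x
    have e3 : ∀ j, pd j (pd j (fun y => (ν⁻¹ • u (t / ν) y) i)) x =
        ν⁻¹ * pd j (pd j (fun y => u (t / ν) y i)) x := by
      intro j
      rw [e2 j]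
      exact pd_const_mul ν⁻¹ j _ x
    have e4 : pd i (fun x => (ν ^ 2)⁻¹ * p (t / ν) x) x = (ν ^ 2)⁻¹ * pd i (p (t / ν)) x :=
      pd_const_mul _ i _ x
    rw [e1, e4]
    simp_rw [e3, e2, Pi.smul_apply, smul_eq_mul]
    rw [← Finset.mul_sum, one_mul]
    have e5 : ∑ j, ν⁻¹ * u (t / ν) x j * (ν⁻¹ * pd j (fun y => u (t / ν) y i) x) =
        ν⁻¹ * (ν⁻¹ * ∑ j, u (t / ν) x j * pd j (fun y => u (t / ν) y i) x) := by
      rw [Finset.mul_sum, Finset.mul_sum]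
      refine Finset.sum_congr rfl fun j _ => ?_
      ring
    rw [e5]
    have e6 : (ν ^ 2)⁻¹ = ν⁻¹ * ν⁻¹ := by
      rw [sq, mul_inv]
    have e7 : ν⁻¹ * ν⁻¹ * ν = ν⁻¹ := by
      rw [mul_assoc, inv_mul_cancel₀ hν.ne', mul_one]
    rw [e6]
    have h2 := congrArg (fun z => ν⁻¹ * ν⁻¹ * z) h1
    simp only [mul_add, mul_sub] at h2
    rw [← mul_assoc, ← mul_assoc, h2, ← mul_assoc, e7]
  · intro t ht x hx i
    exact bd3_scale hν (h.force _ (hdiv t ht)) x hx i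
  · intro t ht
    have h1 : IntegrableOn (fun x => ν⁻¹ ^ 2 * nsq (u (t / ν)) x) Ω :=
      (h.en_int _ (hdiv t ht)).const_mul _
    refine h1.congr (Filter.Eventually.of_forall fun x => ?_)
    exact (nsq_smul _ _ _).symm
  · intro t ht
    have h1 : ∫ x in Ω, nsq (fun x => ν⁻¹ • u (t / ν) x) x =
        ν⁻¹ ^ 2 * ∫ x in Ω, nsq (u (t / ν)) x := by
      rw [← integral_const_mul]
      refine integral_congr_ae (Filter.Eventually.of_forall fun x => ?_)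
      exact nsq_smul _ _ _
    have h2 := mul_le_mul_of_nonneg_left (h.en _ (hdiv t ht)) (sq_nonneg ν⁻¹)
    have h3 : (E / ν) ^ 2 = ν⁻¹ ^ 2 * E ^ 2 := by
      rw [div_eq_mul_inv, mul_pow]; ring
    rw [h3]
    exact h1.le.trans h2

end Pool.Agent.W589.MH
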